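import Mathlib

/-!
The second Borel-Cantelli lemma for pairwise independent events.
-/

set_option autoImplicit false

open MeasureTheory Filter Topology

namespace Pool.Agent.R335.PP

set_option linter.unusedSectionVars false

variable {Ω : Type*} [MeasurableSpace Ω] {μ : Measure Ω} [IsProbabilityMeasure μ]

/-- centered indicator -/
noncomputable def ci (μ : Measure Ω) (A : Set Ω) (x : Ω) : ℝ := A.indicator (fun _ => (1 : ℝ)) x - μ.real A

lemma ci_abs (A : Set Ω) (x : Ω) : |ci μ A x| ≤ 1 := by
  unfold ci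
  have h1 : 0 ≤ μ.real A := measureReal_nonneg
  have h2 : μ.real A ≤ 1 := measureReal_le_one
  by_cases hx : x ∈ A
  · rw [Set.indicator_of_mem hx, abs_le]; constructor <;> linarith
  · rw [Set.indicator_of_notMem hx, abs_le]; constructor <;> linarith

lemma ci_meas {A : Set Ω} (hA : MeasurableSet A) : Measurable (ci μ A) :=
  (measurable_const.indicator hA).sub measurable_const

lemma ci_mul_int {A B : Set Ω} (hA : MeasurableSet A) (hB : MeasurableSet B) :
    ∫ x, ci μ A x * ci μ B x ∂μ = μ.real (A ∩ B) - μ.real A * μ.real B := by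
  have h1 : (fun x => ci μ A x * ci μ B x) = fun x => (A ∩ B).indicator (fun _ => (1 : ℝ)) x -
      (μ.real B * A.indicator (fun _ => (1 : ℝ)) x + μ.real A * B.indicator (fun _ => (1 : ℝ)) x) +
      μ.real A * μ.real B := by
    funext x
    unfold ci
    by_cases h1 : x ∈ A <;> by_cases h2 : x ∈ B <;>
      simp [h1, h2, Set.mem_inter_iff] <;> ring
  rw [h1]
  have i1 : Integrable ((A ∩ B).indicator (fun _ => (1 : ℝ))) μ :=
    (integrable_const (1 : ℝ)).indicator (hA.inter hB)
  have i2 : Integrable (A.indicator (fun _ => (1 : ℝ))) μ :=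
    (integrable_const (1 : ℝ)).indicator hA
  have i3 : Integrable (B.indicator (fun _ => (1 : ℝ))) μ :=
    (integrable_const (1 : ℝ)).indicator hB
  have i4 : Integrable (fun x => μ.real B * A.indicator (fun _ => (1 : ℝ)) x + μ.real A * B.indicator (fun _ => (1 : ℝ)) x) μ :=
    (i2.const_mul _).add (i3.const_mul _)
  have i5 : Integrable (fun x => (A ∩ B).indicator (fun _ => (1 : ℝ)) x -
      (μ.real B * A.indicator (fun _ => (1 : ℝ)) x + μ.real A * B.indicator (fun _ => (1 : ℝ)) x)) μ := i1.sub i4
  rw [integral_add i5 (integrable_const _), integral_sub i1 i4, integral_add (i2.const_mul _) (i3.const_mul _),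
    integral_const_mul, integral_const_mul, integral_indicator_const _ hA, integral_indicator_const _ hB,
    integral_indicator_const _ (hA.inter hB)]
  simp
  ring

/-- The measure of the set on which none of finitely many pairwise independent events occurs. -/
lemma none_le {ι : Type*} (A : ι → Set Ω) (hA : ∀ i, MeasurableSet (A i))
    (hind : ∀ i j, i ≠ j → μ.real (A i ∩ A j) = μ.real (A i) * μ.real (A j)) (s : Finset ι)
    (hs : 0 < ∑ i ∈ s, μ.real (A i)) :
    μ.real {x | ∀ i ∈ s, x ∉ A i} ≤ 1 / ∑ i ∈ s, μ.real (A i) := by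
  classical
  set m := ∑ i ∈ s, μ.real (A i) with hm
  have hsq : ∫ x, (∑ i ∈ s, ci μ (A i) x) ^ 2 ∂μ ≤ m := by
    have h1 : ∀ x, (∑ i ∈ s, ci μ (A i) x) ^ 2 = ∑ i ∈ s, ∑ j ∈ s, ci μ (A i) x * ci μ (A j) x := by
      intro x
      rw [sq, Finset.sum_mul_sum]
    simp_rw [h1]
    have hint : ∀ i j, Integrable (fun x => ci μ (A i) x * ci μ (A j) x) μ := by
      intro i j
      refine Integrable.of_bound (((ci_meas (hA i)).mul (ci_meas (hA j))).aestronglyMeasurable) 1 ?_
      refine ae_of_all _ fun x => ?_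
      rw [Real.norm_eq_abs, abs_mul]
      exact mul_le_one₀ (ci_abs _ _) (abs_nonneg _) (ci_abs _ _)
    rw [integral_finsetSum _ fun i _ => integrable_finsetSum _ fun j _ => hint i j, hm]
    refine Finset.sum_le_sum fun i hi => ?_
    rw [integral_finsetSum _ fun j _ => hint i j]
    rw [Finset.sum_eq_single_of_mem i hi]
    · rw [ci_mul_int (hA i) (hA i), Set.inter_self]
      have : 0 ≤ μ.real (A i) * μ.real (A i) := mul_self_nonneg _
      linarith
    · intro j _ hji
      rw [ci_mul_int (hA i) (hA j), hind i j (Ne.symm hji), sub_self]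
  have hpt : ∀ x, ({x | ∀ i ∈ s, x ∉ A i} : Set Ω).indicator (fun _ => m ^ 2) x ≤
      (∑ i ∈ s, ci μ (A i) x) ^ 2 := by
    intro x
    by_cases hx : x ∈ {x | ∀ i ∈ s, x ∉ A i}
    · rw [Set.indicator_of_mem hx]
      have h2 : ∑ i ∈ s, ci μ (A i) x = -m := by
        rw [hm, ← Finset.sum_neg_distrib]
        refine Finset.sum_congr rfl fun i hi => ?_
        unfold ci
        rw [Set.indicator_of_notMem (hx i hi)]
        ring
      rw [h2]
      nlinarith
    · rw [Set.indicator_of_notMem hx]
      positivity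
  have hms : MeasurableSet {x | ∀ i ∈ s, x ∉ A i} := by
    have : {x | ∀ i ∈ s, x ∉ A i} = ⋂ i ∈ s, (A i)ᶜ := by
      ext x; simp
    rw [this]
    exact Finset.measurableSet_biInter _ fun i _ => (hA i).compl
  have h3 : μ.real {x | ∀ i ∈ s, x ∉ A i} * m ^ 2 ≤ m := by
    calc μ.real {x | ∀ i ∈ s, x ∉ A i} * m ^ 2
        = ∫ x, ({x | ∀ i ∈ s, x ∉ A i} : Set Ω).indicator (fun _ => m ^ 2) x ∂μ := by
          rw [integral_indicator_const _ hms, smul_eq_mul]
      _ ≤ ∫ x, (∑ i ∈ s, ci μ (A i) x) ^ 2 ∂μ := by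
          apply integral_mono
          · exact (integrable_const _).indicator hms
          · refine Integrable.of_bound ?_ ((s.card : ℝ) ^ 2) ?_
            · exact ((Finset.measurable_sum _ fun i _ => ci_meas (hA i)).pow_const 2).aestronglyMeasurable
            · refine ae_of_all _ fun x => ?_
              rw [Real.norm_eq_abs, abs_pow]
              refine pow_le_pow_left₀ (abs_nonneg _) ?_ 2
              refine (Finset.abs_sum_le_sum_abs _ _).trans ?_
              calc ∑ i ∈ s, |ci μ (A i) x| ≤ ∑ i ∈ s, (1 : ℝ) := Finset.sum_le_sum fun i _ => ci_abs _ _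
                _ = s.card := by simp
          · exact hpt
      _ ≤ m := hsq
  rw [le_div_iff₀ hs]
  nlinarith

/-- Second Borel-Cantelli lemma for pairwise independent events. -/
theorem ae_infinite {ι : Type*} [Countable ι] (A : ι → Set Ω) (hA : ∀ i, MeasurableSet (A i))
    (hind : ∀ i j, i ≠ j → μ.real (A i ∩ A j) = μ.real (A i) * μ.real (A j))
    (hdiv : ¬ Summable fun i => μ.real (A i)) :
    ∀ᵐ x ∂μ, {i | x ∈ A i}.Infinite := by
  classical
  have hN : ∀ F : Finset ι, μ {x | ∀ i, i ∉ F → x ∉ A i} = 0 := by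
    intro F
    by_contra hne
    have hpos : 0 < μ.real {x | ∀ i, i ∉ F → x ∉ A i} := by
      rw [measureReal_def]
      exact ENNReal.toReal_pos hne (measure_ne_top _ _)
    set p := μ.real {x | ∀ i, i ∉ F → x ∉ A i} with hp
    -- find a large partial sum
    obtain ⟨s, hs⟩ : ∃ s : Finset ι, 1 / p + 1 + ∑ i ∈ F, μ.real (A i) < ∑ i ∈ s, μ.real (A i) := by
      by_contra hcon
      push Not at hcon
      exact hdiv (summable_of_sum_le (fun _ => measureReal_nonneg) hcon)
    have hs2 : 1 / p + 1 < ∑ i ∈ s \ F, μ.real (A i) := by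
      have h1 : ∑ i ∈ s, μ.real (A i) ≤ ∑ i ∈ s \ F, μ.real (A i) + ∑ i ∈ F, μ.real (A i) := by
        rw [← Finset.sum_union Finset.sdiff_disjoint]
        apply Finset.sum_le_sum_of_subset_of_nonneg
        · intro i hi
          by_cases h : i ∈ F
          · exact Finset.mem_union_right _ h
          · exact Finset.mem_union_left _ (Finset.mem_sdiff.2 ⟨hi, h⟩)
        · intro i _ _
          exact measureReal_nonneg
      linarith
    have hs0 : 0 < ∑ i ∈ s \ F, μ.real (A i) := by
      have : 0 < 1 / p := by positivity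
      linarith
    have h1 := none_le (μ := μ) A hA hind (s \ F) hs0
    have h2 : p ≤ μ.real {x | ∀ i ∈ s \ F, x ∉ A i} := by
      apply measureReal_mono
      · intro x hx i hi
        exact hx _ (Finset.mem_sdiff.1 hi).2
      · exact measure_ne_top _ _
    have h3 := h2.trans h1
    rw [le_div_iff₀ hs0] at h3
    have h4 : p * (1 / p + 1) < p * ∑ i ∈ s \ F, μ.real (A i) :=
      mul_lt_mul_of_pos_left hs2 hpos
    rw [mul_add, mul_one, mul_one_div, div_self hpos.ne'] at h4
    linarith
  have hall : ∀ᵐ x ∂μ, ∀ F : Finset ι, ¬ ∀ i, i ∉ F → x ∉ A i := by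
    rw [ae_all_iff]
    intro F
    rw [ae_iff]
    simpa using hN F
  filter_upwards [hall] with x hx hfin
  apply hx hfin.toFinset
  intro i hi hxi
  apply hi
  rw [Set.Finite.mem_toFinset]
  exact hxi

end Pool.Agent.R335.PP
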