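import Mathlib
import Pool.Agent.R335.PP.BC

/-!
Integer linear forms on the torus: non-parallel forms are independent.
-/

set_option autoImplicit false

open MeasureTheory Filter Topology

namespace Pool.Agent.R335.PP

instance instProbCircle : IsProbabilityMeasure (volume : Measure UnitAddCircle) :=
  ⟨by rw [AddCircle.measure_univ, ENNReal.ofReal_one]⟩

variable {d : ℕ}

/-- the linear form `α ↦ k · α` on the torus -/
def chi (k : Fin d → ℤ) : (Fin d → UnitAddCircle) →+ UnitAddCircle where
  toFun α := ∑ i, k i • α i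
  map_zero' := by simp
  map_add' α β := by simp [smul_add, Finset.sum_add_distrib]

lemma chi_apply (k : Fin d → ℤ) (α : Fin d → UnitAddCircle) : chi k α = ∑ i, k i • α i := rfl

lemma chi_cont (k : Fin d → ℤ) : Continuous (chi k) := by
  have : (chi k : (Fin d → UnitAddCircle) → UnitAddCircle) = fun α => ∑ i, k i • α i := rfl
  rw [this]
  fun_prop

/-- the pair of two linear forms -/
def chi2 (k l : Fin d → ℤ) : (Fin d → UnitAddCircle) →+ UnitAddCircle × UnitAddCircle :=
  (chi k).prod (chi l)

lemma chi2_surj (k l : Fin d → ℤ) {i j : Fin d} (hdet : k i * l j - k j * l i ≠ 0) :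
    Function.Surjective (chi2 k l) := by
  have hij : i ≠ j := by
    rintro rfl
    apply hdet
    ring
  rintro ⟨x, y⟩
  obtain ⟨x, rfl⟩ := QuotientAddGroup.mk_surjective x
  obtain ⟨y, rfl⟩ := QuotientAddGroup.mk_surjective y
  set D : ℝ := ((k i * l j - k j * l i : ℤ) : ℝ) with hD
  have hD0 : D ≠ 0 := by
    rw [hD]
    exact_mod_cast hdet
  -- real solution
  set u : ℝ := (x * l j - y * k j) / D with hu
  set v : ℝ := (y * k i - x * l i) / D with hv
  refine ⟨fun m => if m = i then (u : UnitAddCircle) else if m = j then (v : UnitAddCircle) else 0, ?_⟩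
  have key : ∀ k : Fin d → ℤ, chi k (fun m => if m = i then (u : UnitAddCircle)
      else if m = j then (v : UnitAddCircle) else 0) = (((k i : ℝ) * u + k j * v : ℝ) : UnitAddCircle) := by
    intro k
    rw [chi_apply]
    rw [← Finset.add_sum_erase _ _ (Finset.mem_univ i)]
    rw [← Finset.add_sum_erase _ _ (Finset.mem_erase.2 ⟨hij.symm, Finset.mem_univ j⟩)]
    rw [Finset.sum_eq_zero]
    · simp only [if_true, if_neg hij.symm, add_zero]
      push_cast
      rw [← zsmul_eq_mul, ← zsmul_eq_mul]
      rfl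
    · intro m hm
      simp only [Finset.mem_erase, Finset.mem_univ, and_true] at hm
      rw [if_neg hm.2, if_neg hm.1, smul_zero]
  have e1 : (k i : ℝ) * u + k j * v = x := by
    rw [hu, hv]
    field_simp
    rw [hD]
    push_cast
    ring
  have e2 : (l i : ℝ) * u + l j * v = y := by
    rw [hu, hv]
    field_simp
    rw [hD]
    push_cast
    ring
  unfold chi2
  rw [AddMonoidHom.prod_apply, key k, key l, e1, e2]

lemma mp2 (k l : Fin d → ℤ) {i j : Fin d} (hdet : k i * l j - k j * l i ≠ 0) :
    MeasurePreserving (chi2 k l) (volume : Measure (Fin d → UnitAddCircle))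
      ((volume : Measure UnitAddCircle).prod volume) := by
  refine AddMonoidHom.measurePreserving ?_ (chi2_surj k l hdet) ?_
  · exact (chi_cont k).prodMk (chi_cont l)
  · simp

lemma mp1 (k : Fin d → ℤ) {i : Fin d} (hk : k i ≠ 0) :
    MeasurePreserving (chi k) (volume : Measure (Fin d → UnitAddCircle))
      (volume : Measure UnitAddCircle) := by
  refine AddMonoidHom.measurePreserving (chi_cont k) ?_ ?_
  · intro x
    obtain ⟨x, rfl⟩ := QuotientAddGroup.mk_surjective x
    refine ⟨fun m => if m = i then ((x / k i : ℝ) : UnitAddCircle) else 0, ?_⟩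
    rw [chi_apply, Finset.sum_eq_single_of_mem i (Finset.mem_univ i)]
    · rw [if_pos rfl]
      have h1 : (k i : ℝ) * (x / k i) = x := by
        have : (k i : ℝ) ≠ 0 := by exact_mod_cast hk
        field_simp
      have h2 : k i • ((x / k i : ℝ) : UnitAddCircle) = (((k i : ℝ) * (x / k i) : ℝ) : UnitAddCircle) := by
        rw [← zsmul_eq_mul]
        rfl
      rw [h2, h1]
    · intro m _ hm
      rw [if_neg hm, smul_zero]
  · simp

/-- the slab `‖k · α‖ ≤ r` -/
def slab (k : Fin d → ℤ) (r : ℝ) : Set (Fin d → UnitAddCircle) := {α | ‖chi k α‖ ≤ r}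

lemma slab_eq (k : Fin d → ℤ) (r : ℝ) : slab k r = chi k ⁻¹' Metric.closedBall 0 r := by
  ext α
  simp [slab]

lemma meas_slab (k : Fin d → ℤ) (r : ℝ) : MeasurableSet (slab k r) := by
  rw [slab_eq]
  exact (chi_cont k).measurable Metric.isClosed_closedBall.measurableSet

lemma real_ball (r : ℝ) (h0 : 0 ≤ r) (h1 : r ≤ 1 / 2) :
    (volume : Measure UnitAddCircle).real (Metric.closedBall 0 r) = 2 * r := by
  rw [measureReal_def, AddCircle.volume_closedBall, min_eq_right (by linarith),
    ENNReal.toReal_ofReal (by linarith)]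

lemma real_slab (k : Fin d → ℤ) {i : Fin d} (hk : k i ≠ 0) (r : ℝ) (h0 : 0 ≤ r) (h1 : r ≤ 1 / 2) :
    (volume : Measure (Fin d → UnitAddCircle)).real (slab k r) = 2 * r := by
  rw [slab_eq, measureReal_def, (mp1 k hk).measure_preimage
    Metric.isClosed_closedBall.measurableSet.nullMeasurableSet, ← measureReal_def, real_ball r h0 h1]

lemma real_slab_inter (k l : Fin d → ℤ) {i j : Fin d} (hdet : k i * l j - k j * l i ≠ 0) (r s : ℝ)
    (h0 : 0 ≤ r) (h1 : r ≤ 1 / 2) (h0' : 0 ≤ s) (h1' : s ≤ 1 / 2) :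
    (volume : Measure (Fin d → UnitAddCircle)).real (slab k r ∩ slab l s) = 2 * r * (2 * s) := by
  have : slab k r ∩ slab l s = chi2 k l ⁻¹' (Metric.closedBall 0 r ×ˢ Metric.closedBall 0 s) := by
    rw [slab_eq, slab_eq]
    ext α
    simp [chi2]
  rw [this, measureReal_def, (mp2 k l hdet).measure_preimage
    (Metric.isClosed_closedBall.measurableSet.prod Metric.isClosed_closedBall.measurableSet).nullMeasurableSet,
    Measure.prod_prod, ENNReal.toReal_mul, ← measureReal_def, ← measureReal_def, real_ball r h0 h1,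
    real_ball s h0' h1']

/-- **Khintchine-Groshev for one linear form, divergence, over a family of pairwise non-parallel
vectors.** -/
theorem groshev {ι : Type*} [Countable ι] (k : ι → Fin d → ℤ) (r : ι → ℝ) (hk : ∀ n, ∃ i, k n i ≠ 0)
    (hpar : ∀ m n, m ≠ n → ∃ i j, k m i * k n j - k m j * k n i ≠ 0)
    (h0 : ∀ n, 0 ≤ r n) (h1 : ∀ n, r n ≤ 1 / 2) (hdiv : ¬ Summable r) :
    ∀ᵐ α : Fin d → UnitAddCircle, {n | ‖chi (k n) α‖ ≤ r n}.Infinite := by
  have h := ae_infinite (μ := (volume : Measure (Fin d → UnitAddCircle))) (fun n => slab (k n) (r n))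
    (fun n => meas_slab _ _) ?_ ?_
  · exact h
  · intro m n hmn
    obtain ⟨i, j, hdet⟩ := hpar m n hmn
    obtain ⟨i1, hi1⟩ := hk m
    obtain ⟨i2, hi2⟩ := hk n
    rw [real_slab_inter _ _ hdet _ _ (h0 m) (h1 m) (h0 n) (h1 n), real_slab _ hi1 _ (h0 m) (h1 m),
      real_slab _ hi2 _ (h0 n) (h1 n)]
  · intro hs
    apply hdiv
    have : (fun n => (volume : Measure (Fin d → UnitAddCircle)).real (slab (k n) (r n))) =
        fun n => 2 * r n := by
      funext n
      obtain ⟨i, hi⟩ := hk n
      exact real_slab _ hi _ (h0 n) (h1 n)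
    rw [this] at hs
    exact (summable_mul_left_iff (by norm_num)).1 hs

end Pool.Agent.R335.PP
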