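import Mathlib
import Pool.Agent.R335.PP.Torus

/-!
Infinitely many small values of integer linear forms at almost every point.
-/

set_option autoImplicit false

open MeasureTheory Filter Topology Finset

namespace Pool.Agent.R335.PP

/-- average order of `φ(r)/r` from below -/
theorem sum_phi (n : ℕ) : (n : ℝ) / 2 ≤ ∑ r ∈ Ico 1 (n + 1), (Nat.totient r : ℝ) / r := by
  rcases Nat.eq_zero_or_pos n with h0 | h0
  · subst h0; simp
  have hnR : (0 : ℝ) < n := by exact_mod_cast h0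
  have h1 : ∑ r ∈ Ico 1 (n + 1), (r : ℝ) = n * (n + 1) / 2 := by
    have : ∀ m : ℕ, ∑ r ∈ Ico 1 (m + 1), (r : ℝ) = m * (m + 1) / 2 := by
      intro m
      induction m with
      | zero => simp
      | succ m ih => rw [sum_Ico_succ_top (by omega), ih]; push_cast; ring
    exact this n
  have h2 : ∑ r ∈ Ico 1 (n + 1), (r : ℝ)
      = ∑ r ∈ Ico 1 (n + 1), ∑ d ∈ Ico 1 (n + 1), (if d ∣ r then (Nat.totient d : ℝ) else 0) := by
    apply sum_congr rfl
    intro r hr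
    rw [mem_Ico] at hr
    rw [← sum_filter]
    have h3 : (Ico 1 (n + 1)).filter (fun d => d ∣ r) = r.divisors := by
      ext d
      simp only [mem_filter, mem_Ico, Nat.mem_divisors]
      constructor
      · rintro ⟨_, h⟩; exact ⟨h, by omega⟩
      · rintro ⟨h, hr0⟩
        have := Nat.le_of_dvd (by omega) h
        have := Nat.pos_of_dvd_of_pos h (by omega)
        exact ⟨by omega, h⟩
    rw [h3]
    exact_mod_cast (Nat.sum_totient r).symm
  have h3 : ∀ d ∈ Ico 1 (n + 1), ∑ r ∈ Ico 1 (n + 1), (if d ∣ r then (Nat.totient d : ℝ) else 0)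
      ≤ n * ((Nat.totient d : ℝ) / d) := by
    intro d hd
    rw [mem_Ico] at hd
    rw [← sum_filter, sum_const, nsmul_eq_mul]
    have hc : ((Ico 1 (n + 1)).filter (fun r => d ∣ r)).card = n / d := by
      have h4 : (Ico 1 (n + 1)).filter (fun r => d ∣ r) = (Ioc 0 n).filter (fun r => d ∣ r) := by
        ext r; simp only [mem_filter, mem_Ico, mem_Ioc]; constructor <;> rintro ⟨h, h'⟩ <;> exact ⟨by omega, h'⟩
      rw [h4, Nat.Ioc_filter_dvd_card_eq_div]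
    rw [hc]
    have hdR : (0 : ℝ) < d := by exact_mod_cast (by omega : 0 < d)
    have h5 : ((n / d : ℕ) : ℝ) ≤ (n : ℝ) / d := Nat.cast_div_le
    calc ((n / d : ℕ) : ℝ) * (Nat.totient d : ℝ) ≤ (n : ℝ) / d * Nat.totient d :=
          mul_le_mul_of_nonneg_right h5 (Nat.cast_nonneg _)
      _ = n * ((Nat.totient d : ℝ) / d) := by ring
  have h4 : (n : ℝ) * (n + 1) / 2 ≤ n * ∑ r ∈ Ico 1 (n + 1), (Nat.totient r : ℝ) / r := by
    rw [← h1, h2, sum_comm, mul_sum]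
    exact sum_le_sum h3
  have h5 : (n : ℝ) * (n / 2) ≤ n * ∑ r ∈ Ico 1 (n + 1), (Nat.totient r : ℝ) / r := by
    refine le_trans ?_ h4
    nlinarith
  exact le_of_mul_le_mul_left h5 hnR

/-- sum of `φ` over a shell -/
lemma shell (j : ℕ) : (4 ^ j * 4 ^ j : ℝ) ≤ ∑ q ∈ Ico (4 ^ j) (4 ^ (j + 1)), (Nat.totient q : ℝ) := by
  have hpos : 1 ≤ 4 ^ j := Nat.one_le_pow _ _ (by norm_num)
  have h1 := sum_phi (4 ^ (j + 1) - 1)
  have e1 : 4 ^ (j + 1) - 1 + 1 = 4 ^ (j + 1) := by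
    have : 1 ≤ 4 ^ (j + 1) := Nat.one_le_pow _ _ (by norm_num)
    omega
  rw [e1] at h1
  have e2 : ((4 ^ (j + 1) - 1 : ℕ) : ℝ) = 4 * 4 ^ j - 1 := by
    rw [Nat.cast_sub (Nat.one_le_pow _ _ (by norm_num))]
    push_cast
    ring
  rw [e2] at h1
  have h2 : ∑ r ∈ Ico 1 (4 ^ (j + 1)), (Nat.totient r : ℝ) / r =
      ∑ r ∈ Ico 1 (4 ^ j), (Nat.totient r : ℝ) / r +
      ∑ r ∈ Ico (4 ^ j) (4 ^ (j + 1)), (Nat.totient r : ℝ) / r :=
    (sum_Ico_consecutive _ hpos (Nat.pow_le_pow_right (by norm_num) (by omega))).symm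
  have h3 : ∑ r ∈ Ico 1 (4 ^ j), (Nat.totient r : ℝ) / r ≤ 4 ^ j - 1 := by
    calc ∑ r ∈ Ico 1 (4 ^ j), (Nat.totient r : ℝ) / r ≤ ∑ r ∈ Ico 1 (4 ^ j), (1 : ℝ) := by
          refine sum_le_sum fun r hr => ?_
          rw [mem_Ico] at hr
          have h4 : (0 : ℝ) < r := by exact_mod_cast (by omega : 0 < r)
          rw [div_le_one h4]
          exact_mod_cast Nat.totient_le r
      _ = 4 ^ j - 1 := by
          rw [sum_const, Nat.card_Ico, nsmul_eq_mul, mul_one, Nat.cast_sub hpos]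
          push_cast
          rfl
  have h5 : (4 : ℝ) ^ j ≤ ∑ r ∈ Ico (4 ^ j) (4 ^ (j + 1)), (Nat.totient r : ℝ) / r := by
    have : (1 : ℝ) ≤ 4 ^ j := by exact_mod_cast hpos
    linarith
  calc (4 ^ j * 4 ^ j : ℝ) ≤ 4 ^ j * ∑ r ∈ Ico (4 ^ j) (4 ^ (j + 1)), (Nat.totient r : ℝ) / r := by
        gcongr
    _ ≤ ∑ q ∈ Ico (4 ^ j) (4 ^ (j + 1)), (Nat.totient q : ℝ) := by
        rw [mul_sum]
        refine sum_le_sum fun r hr => ?_
        rw [mem_Ico] at hr
        have h6 : (0 : ℝ) < r := by exact_mod_cast (by omega : 0 < r)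
        have h7 : (4 : ℝ) ^ j ≤ r := by exact_mod_cast hr.1
        rw [mul_div_assoc', div_le_iff₀ h6, mul_comm]
        exact mul_le_mul_of_nonneg_left h7 (Nat.cast_nonneg _)

/-- the index set -/
def SS (n : ℕ) : Set (ℕ × ℕ × (Fin n → ℕ)) :=
  {p | 1 ≤ p.1 ∧ 1 ≤ p.2.1 ∧ p.2.1 ≤ p.1 ∧ Nat.Coprime p.1 p.2.1 ∧
    ∀ i, 1 ≤ p.2.2 i ∧ p.2.2 i ≤ 4 ^ Nat.log 4 p.1}

/-- the integer vector of an index -/
def vec {n : ℕ} (p : ℕ × ℕ × (Fin n → ℕ)) : Fin (n + 2) → ℕ := Fin.cons p.1 (Fin.cons p.2.1 p.2.2)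

/-- the radius of an index -/
noncomputable def rad {n : ℕ} (c : ℝ) (p : ℕ × ℕ × (Fin n → ℕ)) : ℝ :=
  c / (4 ^ (Nat.log 4 p.1 * (n + 2)) * (Nat.log 4 p.1 + 1))

lemma vec_zero {n : ℕ} (p : ℕ × ℕ × (Fin n → ℕ)) : vec p 0 = p.1 := rfl

lemma vec_one {n : ℕ} (p : ℕ × ℕ × (Fin n → ℕ)) : vec p 1 = p.2.1 := rfl

lemma vec_inj {n : ℕ} {p q : ℕ × ℕ × (Fin n → ℕ)} (h : vec p = vec q) : p = q := by
  have h1 := (Fin.cons_inj.1 h)
  have h2 := Fin.cons_inj.1 h1.2
  exact Prod.ext h1.1 (Prod.ext h2.1 h2.2)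

lemma par {n : ℕ} {p q : ℕ × ℕ × (Fin n → ℕ)} (hp : p ∈ SS n) (hq : q ∈ SS n) (hpq : p ≠ q) :
    ∃ i j, ((vec p i : ℕ) : ℤ) * (vec q j : ℕ) - ((vec p j : ℕ) : ℤ) * (vec q i : ℕ) ≠ 0 := by
  by_contra hcon
  push Not at hcon
  apply hpq
  obtain ⟨hp1, hp2, hp3, hp4, hp5⟩ := hp
  obtain ⟨hq1, hq2, hq3, hq4, hq5⟩ := hq
  have h1 : p.1 * q.2.1 = p.2.1 * q.1 := by
    have := hcon 0 1
    rw [vec_zero, vec_zero, vec_one, vec_one] at this
    have h2 : (p.1 : ℤ) * q.2.1 = p.2.1 * q.1 := by linarith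
    exact_mod_cast h2
  have h2 : p.1 ∣ q.1 := by
    apply hp4.dvd_of_dvd_mul_left
    rw [← h1]
    exact dvd_mul_right _ _
  have h3 : q.1 ∣ p.1 := by
    apply hq4.dvd_of_dvd_mul_right
    rw [h1]
    exact dvd_mul_left _ _
  have h4 : p.1 = q.1 := Nat.dvd_antisymm h2 h3
  apply vec_inj
  funext i
  have h5 := hcon 0 i
  rw [vec_zero, vec_zero, ← h4] at h5
  have h6 : (p.1 : ℤ) ≠ 0 := by
    have : p.1 ≠ 0 := by omega
    exact_mod_cast this
  have h7 : (p.1 : ℤ) * ((vec q i : ℕ) : ℤ) = p.1 * ((vec p i : ℕ) : ℤ) := by linarith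
  have h8 := mul_left_cancel₀ h6 h7
  exact_mod_cast h8.symm

/-- the indices in a shell -/
def Shell (n j : ℕ) : Finset (ℕ × ℕ × (Fin n → ℕ)) :=
  ((Ico (4 ^ j) (4 ^ (j + 1))) ×ˢ (range (4 ^ (j + 1))) ×ˢ
    (Fintype.piFinset fun _ : Fin n => Icc 1 (4 ^ j))).filter fun p => p.2.1 < p.1 ∧ Nat.Coprime p.1 p.2.1

lemma card_shell (n j : ℕ) :
    (Shell n j).card = (∑ q ∈ Ico (4 ^ j) (4 ^ (j + 1)), Nat.totient q) * (4 ^ j) ^ n := by
  unfold Shell
  rw [card_filter, sum_product, sum_mul]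
  refine sum_congr rfl fun q hq => ?_
  rw [mem_Ico] at hq
  rw [sum_product]
  have h1 : ∀ b ∈ range (4 ^ (j + 1)), ∑ v ∈ (Fintype.piFinset fun _ : Fin n => Icc 1 (4 ^ j)),
      (if b < q ∧ Nat.Coprime q b then 1 else 0) =
      (if b < q ∧ Nat.Coprime q b then 1 else 0) * (4 ^ j) ^ n := by
    intro b _
    rw [sum_const, smul_eq_mul, Fintype.card_piFinset]
    simp [mul_comm]
  rw [sum_congr rfl h1, ← sum_mul, ← card_filter]
  congr 1
  rw [Nat.totient_eq_card_coprime]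
  congr 1
  ext b
  simp only [mem_filter, mem_range]
  constructor
  · rintro ⟨_, h2, h3⟩
    exact ⟨h2, h3⟩
  · rintro ⟨h2, h3⟩
    exact ⟨by omega, h2, h3⟩

lemma log_shell {n j : ℕ} {p : ℕ × ℕ × (Fin n → ℕ)} (hp : p ∈ Shell n j) : Nat.log 4 p.1 = j := by
  unfold Shell at hp
  simp only [mem_filter, mem_product, mem_Ico] at hp
  exact (Nat.log_eq_iff (Or.inr ⟨by norm_num, by
    have : 1 ≤ 4 ^ j := Nat.one_le_pow _ _ (by norm_num)
    omega⟩)).2 ⟨hp.1.1.1, hp.1.1.2⟩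

lemma shell_sub {n j : ℕ} (hj : 1 ≤ j) {p : ℕ × ℕ × (Fin n → ℕ)} (hp : p ∈ Shell n j) : p ∈ SS n := by
  have hlog := log_shell hp
  unfold Shell at hp
  simp only [mem_filter, mem_product, mem_Ico, mem_range, Fintype.mem_piFinset, mem_Icc] at hp
  obtain ⟨⟨⟨h1, h2⟩, h3, h4⟩, h5, h6⟩ := hp
  have h7 : 4 ^ 1 ≤ 4 ^ j := Nat.pow_le_pow_right (by norm_num) hj
  refine ⟨by omega, ?_, h5.le, h6, ?_⟩
  · rcases Nat.eq_zero_or_pos p.2.1 with h | h
    · rw [h, Nat.coprime_zero_right] at h6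
      omega
    · exact h
  · intro i
    rw [hlog]
    exact h4 i

lemma sum_shell {n j : ℕ} {c : ℝ} (hc : 0 < c) : c / (j + 1) ≤ ∑ p ∈ Shell n j, rad c p := by
  have h1 : ∀ p ∈ Shell n j, rad c p = c / (4 ^ (j * (n + 2)) * (j + 1)) := by
    intro p hp
    unfold rad
    rw [log_shell hp]
  rw [sum_congr rfl h1, sum_const, nsmul_eq_mul, card_shell]
  push_cast
  have h2 := shell j
  have h3 : (0 : ℝ) < 4 ^ (j * (n + 2)) * (j + 1) := by positivity
  rw [mul_div_assoc', le_div_iff₀ h3]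
  have e : c / (j + 1) * (4 ^ (j * (n + 2)) * (j + 1)) = (4 ^ j * 4 ^ j) * (4 ^ j) ^ n * c := by
    have : (4 : ℝ) ^ (j * (n + 2)) = (4 ^ j * 4 ^ j) * (4 ^ j) ^ n := by
      rw [← pow_mul, ← pow_add, ← pow_add]
      congr 1
      ring
    rw [this]
    field_simp
  rw [e]
  gcongr

lemma not_summable {n : ℕ} {c : ℝ} (hc : 0 < c) :
    ¬ Summable (fun p : SS n => rad c (p : ℕ × ℕ × (Fin n → ℕ))) := by
  classical
  intro hs
  have hs' : Summable ((SS n).indicator (rad c)) := by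
    rw [← summable_subtype_iff_indicator]
    exact hs
  have hnn : ∀ p, 0 ≤ (SS n).indicator (rad c) p := by
    intro p
    apply Set.indicator_nonneg
    intro q _
    unfold rad
    positivity
  have hbound : ∀ J : ℕ, ∑ j ∈ range J, c / ((j : ℝ) + 1 + 1) ≤ ∑' p, (SS n).indicator (rad c) p := by
    intro J
    have hdis : Set.PairwiseDisjoint (↑(range J) : Set ℕ) fun j => Shell n (j + 1) := by
      intro a _ b _ hab
      rw [Function.onFun, Finset.disjoint_left]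
      intro p hp1 hp2
      have h1 := log_shell hp1
      have h2 := log_shell hp2
      omega
    calc ∑ j ∈ range J, c / ((j : ℝ) + 1 + 1) ≤ ∑ j ∈ range J, ∑ p ∈ Shell n (j + 1), rad c p := by
          refine sum_le_sum fun j _ => ?_
          have := sum_shell (n := n) (j := j + 1) hc
          push_cast at this
          exact this
      _ = ∑ p ∈ (range J).biUnion fun j => Shell n (j + 1), rad c p := (sum_biUnion hdis).symm
      _ = ∑ p ∈ (range J).biUnion fun j => Shell n (j + 1), (SS n).indicator (rad c) p := by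
          refine sum_congr rfl fun p hp => ?_
          obtain ⟨j, _, hj⟩ := mem_biUnion.1 hp
          rw [Set.indicator_of_mem (shell_sub (by omega) hj)]
      _ ≤ ∑' p, (SS n).indicator (rad c) p := hs'.sum_le_tsum _ fun p _ => hnn p
  have hsum : Summable fun j : ℕ => c / ((j : ℝ) + 1 + 1) :=
    summable_of_sum_range_le (fun j => by positivity) hbound
  have h2 : Summable fun j : ℕ => 1 / (((j + 2 : ℕ) : ℝ)) := by
    have := hsum.mul_left (1 / c)
    refine this.congr fun j => ?_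
    push_cast
    field_simp
    ring
  rw [summable_nat_add_iff (f := fun j : ℕ => 1 / (j : ℝ))] at h2
  exact Real.not_summable_one_div_natCast h2

/-- **Small linear forms.** -/
theorem family (n : ℕ) {c : ℝ} (hc : 0 < c) (hc1 : c ≤ 1 / 2) :
    ∀ᵐ α : Fin (n + 2) → UnitAddCircle, ∀ J : ℕ, ∃ j : ℕ, J ≤ j ∧ ∃ k : Fin (n + 2) → ℕ,
      4 ^ j ≤ k 0 ∧ (∀ i, k i < 4 ^ (j + 1)) ∧
      ‖chi (fun i => (k i : ℤ)) α‖ ≤ c / (4 ^ (j * (n + 2)) * (j + 1)) := by
  have h := groshev (d := n + 2) (ι := SS n) (fun p i => ((vec (p : ℕ × ℕ × (Fin n → ℕ)) i : ℕ) : ℤ))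
    (fun p => rad c (p : ℕ × ℕ × (Fin n → ℕ))) ?_ ?_ ?_ ?_ (not_summable hc)
  · filter_upwards [h] with α hα J
    -- infinitely many indices: one of them has a large first coordinate
    by_contra hcon
    push Not at hcon
    apply hα
    have hfin : (Set.range (fun p : (Fin (4 ^ J + 1) × Fin (4 ^ J + 1) × (Fin n → Fin (4 ^ J + 1))) =>
        ((p.1 : ℕ), (p.2.1 : ℕ), fun i => ((p.2.2 i : Fin (4 ^ J + 1)) : ℕ)))).Finite :=
      Set.finite_range _
    apply Set.Finite.of_finite_image (f := fun p : SS n => (p : ℕ × ℕ × (Fin n → ℕ)))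
    · apply hfin.subset
      rintro _ ⟨⟨p, hp⟩, hp2, rfl⟩
      have hq1 : p.1 ≠ 0 := by
        have := hp.1
        omega
      have hlog1 : 4 ^ Nat.log 4 p.1 ≤ p.1 := Nat.pow_log_le_self 4 hq1
      have hlog2 : p.1 < 4 ^ (Nat.log 4 p.1 + 1) := Nat.lt_pow_succ_log_self (by norm_num) _
      have hlt : Nat.log 4 p.1 < J := by
        by_contra hge
        push Not at hge
        have h3 := hcon (Nat.log 4 p.1) hge (vec p) hlog1 (by
          intro i
          obtain ⟨_, _, h3, _, h5⟩ := hp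
          refine Fin.cases ?_ (fun i => ?_) i
          · exact hlog2
          · refine Fin.cases ?_ (fun i => ?_) i
            · show p.2.1 < _
              omega
            · show p.2.2 i < _
              have := (h5 i).2
              omega)
        have h4 : ‖chi (fun i => ((vec p i : ℕ) : ℤ)) α‖ ≤ rad c p := hp2
        unfold rad at h4
        linarith
      have hle : 4 ^ (Nat.log 4 p.1 + 1) ≤ 4 ^ J := Nat.pow_le_pow_right (by norm_num) hlt
      obtain ⟨_, _, h3, _, h5⟩ := hp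
      refine ⟨(⟨p.1, by omega⟩, ⟨p.2.1, by omega⟩, fun i => ⟨p.2.2 i, by
        have := (h5 i).2
        omega⟩), rfl⟩
    · exact Subtype.val_injective.injOn
  · rintro ⟨p, hp⟩
    refine ⟨0, ?_⟩
    rw [vec_zero]
    have := hp.1
    show ((p.1 : ℕ) : ℤ) ≠ 0
    have h1 : p.1 ≠ 0 := by omega
    exact_mod_cast h1
  · rintro ⟨p, hp⟩ ⟨q, hq⟩ hpq
    exact par hp hq fun h => hpq (Subtype.ext h)
  · rintro ⟨p, hp⟩
    unfold rad
    positivity
  · rintro ⟨p, hp⟩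
    unfold rad
    refine le_trans ?_ hc1
    rw [div_le_iff₀ (by positivity)]
    have h1 : (1 : ℝ) ≤ 4 ^ (Nat.log 4 p.1 * (n + 2)) := one_le_pow₀ (by norm_num)
    have h2 : (1 : ℝ) ≤ (Nat.log 4 p.1 : ℝ) + 1 := by
      have : (0 : ℝ) ≤ (Nat.log 4 p.1 : ℝ) := Nat.cast_nonneg _
      linarith
    have h3 : (1 : ℝ) ≤ 4 ^ (Nat.log 4 p.1 * (n + 2)) * ((Nat.log 4 p.1 : ℝ) + 1) := by
      nlinarith
    nlinarith

end Pool.Agent.R335.PP
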