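import Mathlib

/-!
Counting boxes which meet a slab, and the pigeonhole principle for pairs.
-/

set_option autoImplicit false

open Finset

namespace Pool.Agent.R335.PP

/-- integers in a real interval -/
lemma card_int_le (s : Finset ℕ) (u v : ℝ) (huv : u ≤ v) (h : ∀ t ∈ s, u ≤ t ∧ (t : ℝ) ≤ v) :
    (s.card : ℝ) ≤ v - u + 1 := by
  have h1 : s.card ≤ (Finset.Icc ⌈u⌉ ⌊v⌋).card := by
    apply Finset.card_le_card_of_injOn (fun t : ℕ => (t : ℤ))
    · intro t ht
      obtain ⟨h2, h3⟩ := h t ht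
      simp only [Finset.coe_Icc, Set.mem_Icc]
      refine ⟨Int.ceil_le.2 (by push_cast; exact h2), Int.le_floor.2 (by push_cast; exact h3)⟩
    · intro a _ b _ hab
      have h2 : (a : ℤ) = (b : ℤ) := hab
      exact_mod_cast h2
  rw [Int.card_Icc] at h1
  have h2 : (s.card : ℝ) ≤ ((⌊v⌋ + 1 - ⌈u⌉).toNat : ℝ) := by exact_mod_cast h1
  refine h2.trans ?_
  rcases le_or_gt 0 (⌊v⌋ + 1 - ⌈u⌉) with h3 | h3
  · have h4 : (((⌊v⌋ + 1 - ⌈u⌉).toNat : ℤ) : ℝ) = ((⌊v⌋ + 1 - ⌈u⌉ : ℤ) : ℝ) := by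
      rw [Int.toNat_of_nonneg h3]
    have h5 : ((⌊v⌋ + 1 - ⌈u⌉).toNat : ℝ) = ((⌊v⌋ + 1 - ⌈u⌉ : ℤ) : ℝ) := by
      rw [← h4]; push_cast; rfl
    rw [h5]
    push_cast
    have h6 := Int.floor_le v
    have h7 := Int.le_ceil u
    linarith
  · rw [Int.toNat_of_nonpos h3.le]
    push_cast
    linarith

/-- values of a linear function close to integers -/
lemma count1 (q M : ℕ) (hq : 1 ≤ q) (hM : 1 ≤ M) (c η : ℝ) (h0 : 0 ≤ η) (h1 : η ≤ 1 / 2) :
    (((range M).filter fun t : ℕ => ‖(((q : ℝ) * t / M + c : ℝ) : UnitAddCircle)‖ ≤ η).card : ℝ) ≤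
      6 * η * M + 3 * q := by
  have hqR : (1 : ℝ) ≤ q := by exact_mod_cast hq
  have hMR : (1 : ℝ) ≤ M := by exact_mod_cast hM
  set s := (range M).filter fun t : ℕ => ‖(((q : ℝ) * t / M + c : ℝ) : UnitAddCircle)‖ ≤ η with hs
  -- the integers
  set f : ℕ → ℤ := fun t => round ((q : ℝ) * t / M + c) with hf
  have hdist : ∀ t ∈ s, |(q : ℝ) * t / M + c - f t| ≤ η := by
    intro t ht
    rw [hs, mem_filter, UnitAddCircle.norm_eq] at ht
    exact ht.2
  have hmaps : ∀ t ∈ s, f t ∈ Finset.Icc ⌈c - 1 / 2⌉ ⌊c + q + 1 / 2⌋ := by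
    intro t ht
    have h2 := abs_le.1 (hdist t ht)
    have h3 : t < M := mem_range.1 (mem_filter.1 ht).1
    have h4 : (t : ℝ) < M := by exact_mod_cast h3
    have h5 : (q : ℝ) * t / M < q := by
      rw [div_lt_iff₀ (by linarith)]
      exact mul_lt_mul_of_pos_left h4 (by linarith)
    have h6 : 0 ≤ (q : ℝ) * t / M := by positivity
    rw [Finset.mem_Icc]
    refine ⟨Int.ceil_le.2 (by linarith), Int.le_floor.2 (by linarith)⟩
  set K : ℕ := ⌊2 * η * M / q + 1⌋₊ with hK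
  have hfib : ∀ m ∈ Finset.Icc ⌈c - 1 / 2⌉ ⌊c + q + 1 / 2⌋, (s.filter fun t => f t = m).card ≤ K := by
    intro m _
    apply Nat.le_floor
    have h2 := card_int_le (s.filter fun t => f t = m) ((m - c - η) * M / q) ((m - c + η) * M / q) (by
      apply div_le_div_of_nonneg_right _ (by linarith)
      apply mul_le_mul_of_nonneg_right _ (by linarith)
      linarith) (by
      intro t ht
      rw [mem_filter] at ht
      have h3 := abs_le.1 (hdist t ht.1)
      rw [ht.2] at h3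
      have e : (t : ℝ) = ((q : ℝ) * t / M) * M / q := by field_simp
      constructor
      · rw [e]
        apply div_le_div_of_nonneg_right _ (by linarith)
        apply mul_le_mul_of_nonneg_right _ (by linarith)
        linarith
      · rw [e]
        apply div_le_div_of_nonneg_right _ (by linarith)
        apply mul_le_mul_of_nonneg_right _ (by linarith)
        linarith)
    refine h2.trans (le_of_eq ?_)
    field_simp
    ring
  have h2 := Finset.card_le_mul_card_image_of_maps_to hmaps K hfib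
  have h3 : ((Finset.Icc ⌈c - 1 / 2⌉ ⌊c + q + 1 / 2⌋).card : ℝ) ≤ q + 2 := by
    rw [Int.card_Icc]
    rcases le_or_gt 0 (⌊c + q + 1 / 2⌋ + 1 - ⌈c - 1 / 2⌉) with h3 | h3
    · have h5 : ((⌊c + q + 1 / 2⌋ + 1 - ⌈c - 1 / 2⌉).toNat : ℝ) = ((⌊c + q + 1 / 2⌋ + 1 - ⌈c - 1 / 2⌉ : ℤ) : ℝ) := by
        rw [← Int.cast_natCast, Int.toNat_of_nonneg h3]
      rw [h5]
      push_cast
      have h6 := Int.floor_le (c + q + 1 / 2)
      have h7 := Int.le_ceil (c - 1 / 2)
      linarith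
    · rw [Int.toNat_of_nonpos h3.le]
      push_cast
      linarith
  have hKR : (K : ℝ) ≤ 2 * η * M / q + 1 := Nat.floor_le (by positivity)
  calc (s.card : ℝ) ≤ (K : ℝ) * ((Finset.Icc ⌈c - 1 / 2⌉ ⌊c + q + 1 / 2⌋).card : ℝ) := by exact_mod_cast h2
    _ ≤ (2 * η * M / q + 1) * (3 * q) := by
        apply mul_le_mul hKR (by linarith) (Nat.cast_nonneg _) (by positivity)
    _ = 6 * η * M + 3 * q := by
        field_simp
        ring

/-- boxes of side `1 / M` which meet a slab -/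
lemma count2 (n M : ℕ) (hM : 1 ≤ M) (k : Fin (n + 2) → ℕ) (hk : 1 ≤ k 0) (η : ℝ) (h0 : 0 ≤ η) (h1 : η ≤ 1 / 2) :
    (((Fintype.piFinset fun _ : Fin (n + 2) => range M).filter fun t =>
      ‖((∑ i, (k i : ℝ) * t i / M : ℝ) : UnitAddCircle)‖ ≤ η).card : ℝ) ≤
      (6 * η * M + 3 * k 0) * M ^ (n + 1) := by
  classical
  set s := (Fintype.piFinset fun _ : Fin (n + 2) => range M).filter fun t =>
      ‖((∑ i, (k i : ℝ) * t i / M : ℝ) : UnitAddCircle)‖ ≤ η with hs
  set K : ℕ := ⌊6 * η * M + 3 * (k 0 : ℝ)⌋₊ with hK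
  have hmaps : ∀ t ∈ s, Fin.tail t ∈ (Fintype.piFinset fun _ : Fin (n + 1) => range M) := by
    intro t ht
    rw [hs, mem_filter, Fintype.mem_piFinset] at ht
    rw [Fintype.mem_piFinset]
    intro i
    exact ht.1 i.succ
  have hfib : ∀ v ∈ (Fintype.piFinset fun _ : Fin (n + 1) => range M),
      (s.filter fun t => Fin.tail t = v).card ≤ K := by
    intro v _
    apply Nat.le_floor
    have h2 := count1 (k 0) M hk hM (∑ i : Fin (n + 1), (k i.succ : ℝ) * v i / M) η h0 h1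
    refine le_trans ?_ h2
    rw [Nat.cast_le]
    apply Finset.card_le_card_of_injOn (fun t : Fin (n + 2) → ℕ => t 0)
    · intro t ht
      rw [coe_filter, Set.mem_ofPred_eq] at ht
      obtain ⟨ht, htv⟩ := ht
      rw [hs, mem_filter, Fintype.mem_piFinset] at ht
      rw [coe_filter, Set.mem_ofPred_eq]
      refine ⟨ht.1 0, ?_⟩
      have h3 := ht.2
      rw [Fin.sum_univ_succ] at h3
      have h4 : ∀ i : Fin (n + 1), (t i.succ : ℝ) = v i := by
        intro i
        rw [← htv]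
        rfl
      simp_rw [h4] at h3
      exact h3
    · intro a ha b hb hab
      rw [coe_filter, Set.mem_ofPred_eq] at ha hb
      rw [← Fin.cons_self_tail a, ← Fin.cons_self_tail b, ha.2, hb.2]
      have : a 0 = b 0 := hab
      rw [this]
  have h2 := Finset.card_le_mul_card_image_of_maps_to hmaps K hfib
  have h3 : (Fintype.piFinset fun _ : Fin (n + 1) => range M).card = M ^ (n + 1) := by
    simp
  rw [h3] at h2
  have hKR : (K : ℝ) ≤ 6 * η * M + 3 * (k 0 : ℝ) := Nat.floor_le (by positivity)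
  calc (s.card : ℝ) ≤ (K : ℝ) * (M : ℝ) ^ (n + 1) := by exact_mod_cast h2
    _ ≤ _ := by gcongr

/-- pigeonhole for pairs -/
lemma pairs {ι β : Type*} [DecidableEq β] (I : Finset ι) (f : ι → β) (B : Finset β)
    (hf : ∀ a ∈ I, f a ∈ B) :
    ((I.card : ℝ)) ^ 2 ≤ B.card * (((I ×ˢ I).filter fun p => f p.1 = f p.2).card : ℝ) := by
  have h1 : (I.card : ℝ) = ∑ b ∈ B, ((I.filter fun a => f a = b).card : ℝ) := by
    exact_mod_cast Finset.card_eq_sum_card_fiberwise hf
  have h2 : (((I ×ˢ I).filter fun p => f p.1 = f p.2).card : ℝ) =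
      ∑ b ∈ B, ((I.filter fun a => f a = b).card : ℝ) ^ 2 := by
    have h3 : ((I ×ˢ I).filter fun p => f p.1 = f p.2).card =
        ∑ b ∈ B, (((I ×ˢ I).filter fun p => f p.1 = f p.2).filter fun p => f p.1 = b).card :=
      Finset.card_eq_sum_card_fiberwise (f := fun p : ι × ι => f p.1) fun p hp =>
        hf _ (mem_product.1 (mem_filter.1 hp).1).1
    rw [h3]
    push_cast
    refine sum_congr rfl fun b _ => ?_
    have h4 : (((I ×ˢ I).filter fun p => f p.1 = f p.2).filter fun p => f p.1 = b) =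
        (I.filter fun a => f a = b) ×ˢ (I.filter fun a => f a = b) := by
      ext p
      simp only [mem_filter, mem_product]
      constructor
      · rintro ⟨⟨⟨h5, h6⟩, h7⟩, h8⟩
        exact ⟨⟨h5, h8⟩, h6, h7 ▸ h8⟩
      · rintro ⟨⟨h5, h8⟩, h6, h7⟩
        exact ⟨⟨⟨h5, h6⟩, h8.trans h7.symm⟩, h8⟩
    rw [h4, card_product]
    push_cast
    ring
  rw [h1, h2]
  exact sq_sum_le_card_mul_sum_sq

end Pool.Agent.R335.PP
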