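import Mathlib
import Pool.Agent.R335.PP.Family
import Pool.Agent.R335.PP.Count

/-!
Sequences of integers of size `O(n log n)` do not have Poissonian pair correlations in dimension
at least two.
-/

set_option autoImplicit false

open MeasureTheory Filter Topology Finset

namespace Pool.Agent.R335.PP

/-- reduction modulo `1` -/
def toTorus {d : ℕ} (α : Fin d → ℝ) : Fin d → UnitAddCircle := fun i => (α i : UnitAddCircle)

/-- null sets of the torus lift to null sets -/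
theorem ae_lift {d : ℕ} {p : (Fin d → UnitAddCircle) → Prop} (h : ∀ᵐ α, p α) :
    ∀ᵐ α : Fin d → ℝ, p (toTorus α) := by
  have hcube : ∀ z : Fin d → ℤ, ∀ᵐ α ∂((volume : Measure (Fin d → ℝ)).restrict
      (Set.univ.pi fun i => Set.Ioc (z i : ℝ) (z i + 1))), p (toTorus α) := by
    intro z
    have h1 : MeasurePreserving (fun (α : Fin d → ℝ) i => (α i : UnitAddCircle))
        (Measure.pi fun i => (volume : Measure ℝ).restrict (Set.Ioc (z i : ℝ) (z i + 1)))
        (Measure.pi fun _ => (volume : Measure UnitAddCircle)) :=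
      measurePreserving_pi _ _ fun i => UnitAddCircle.measurePreserving_mk (z i : ℝ)
    rw [volume_pi, Measure.restrict_pi_pi]
    exact h1.quasiMeasurePreserving.ae h
  have hun : (⋃ z : Fin d → ℤ, (Set.univ.pi fun i => Set.Ioc (z i : ℝ) (z i + 1))) =
      (Set.univ : Set (Fin d → ℝ)) := by
    rw [Set.eq_univ_iff_forall]
    intro α
    rw [Set.mem_iUnion]
    refine ⟨fun i => ⌈α i⌉ - 1, fun i _ => ?_⟩
    have h1 := Int.le_ceil (α i)
    have h2 := Int.ceil_lt_add_one (α i)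
    push_cast
    constructor <;> linarith
  rw [← Measure.restrict_univ (μ := (volume : Measure (Fin d → ℝ))), ← hun, ae_restrict_iUnion_iff]
  exact hcube

/-- many close pairs -/
theorem many_pairs (n e j : ℕ) (k : Fin (n + 2) → ℕ) (hk0 : 4 ^ j ≤ k 0) (hk : ∀ i, k i < 4 ^ (j + 1))
    (a : ℕ → ℕ) (α : Fin (n + 2) → ℝ)
    (hsmall : ∀ m ∈ Icc 1 ((4 ^ (j + 1 + e)) ^ (n + 2)),
      (a m : ℝ) * ‖chi (fun i => (k i : ℤ)) (toTorus α)‖ ≤ 1 / 4 ^ e)
    (hsz : 2 * (2 * (n + 3)) ≤ 4 ^ e) :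
    ((4 ^ (j + 1 + e)) ^ (n + 2) : ℝ) * (4 ^ e / (12 * (n + 4)) - 1) ≤
      (((Icc 1 ((4 ^ (j + 1 + e)) ^ (n + 2)) ×ˢ Icc 1 ((4 ^ (j + 1 + e)) ^ (n + 2))).filter
        fun p : ℕ × ℕ => p.1 ≠ p.2 ∧
          ‖(fun i => Int.fract ((a p.1 : ℝ) * α i)) - fun i => Int.fract ((a p.2 : ℝ) * α i)‖ <
            1 / (4 ^ (j + 1 + e) : ℕ)).card : ℝ) := by
  classical
  set M : ℕ := 4 ^ (j + 1 + e) with hM
  have hM1 : 1 ≤ M := Nat.one_le_pow _ _ (by norm_num)
  have hMR : (1 : ℝ) ≤ M := by exact_mod_cast hM1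
  set N : ℕ := M ^ (n + 2) with hN
  set x : ℕ → Fin (n + 2) → ℝ := fun m i => Int.fract ((a m : ℝ) * α i) with hx
  -- the boxes
  set f : ℕ → Fin (n + 2) → ℕ := fun m i => ⌊x m i * M⌋₊ with hf
  have hx0 : ∀ m i, 0 ≤ x m i := fun m i => Int.fract_nonneg _
  have hx1 : ∀ m i, x m i < 1 := fun m i => Int.fract_lt_one _
  have hf1 : ∀ m i, (f m i : ℝ) ≤ x m i * M := fun m i => Nat.floor_le (mul_nonneg (hx0 m i) (by linarith))
  have hf2 : ∀ m i, x m i * M < f m i + 1 := fun m i => Nat.lt_floor_add_one _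
  have hfM : ∀ m i, f m i < M := by
    intro m i
    have h1 := hf1 m i
    have h2 : x m i * M < M := by
      have := hx1 m i
      nlinarith
    exact_mod_cast h1.trans_lt h2
  set η : ℝ := (2 * (n + 3) : ℝ) / 4 ^ e with hη
  set B := (Fintype.piFinset fun _ : Fin (n + 2) => range M).filter fun t =>
      ‖((∑ i, (k i : ℝ) * t i / M : ℝ) : UnitAddCircle)‖ ≤ η with hB
  have h4e : (0 : ℝ) < 4 ^ e := by positivity
  have hη0 : 0 ≤ η := by positivity
  have hη1 : η ≤ 1 / 2 := by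
    rw [hη, div_le_iff₀ h4e]
    have : (2 * (2 * ((n : ℝ) + 3))) ≤ 4 ^ e := by exact_mod_cast hsz
    linarith
  have hmaps : ∀ m ∈ Icc 1 N, f m ∈ B := by
    intro m hm
    rw [hB, mem_filter, Fintype.mem_piFinset]
    refine ⟨fun i => mem_range.2 (hfM m i), ?_⟩
    -- the value at the point
    have h1 : ‖((∑ i, (k i : ℝ) * x m i : ℝ) : UnitAddCircle)‖ ≤ 1 / 4 ^ e := by
      have h2 : ((∑ i, (k i : ℝ) * x m i : ℝ) : UnitAddCircle) =
          (a m) • chi (fun i => (k i : ℤ)) (toTorus α) := by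
        rw [chi_apply, Finset.smul_sum]
        have h3 : ((∑ i, (k i : ℝ) * x m i : ℝ) : UnitAddCircle) =
            ∑ i, (((k i : ℝ) * x m i : ℝ) : UnitAddCircle) := by
          exact map_sum (QuotientAddGroup.mk' (AddSubgroup.zmultiples (1 : ℝ))) _ _
        rw [h3]
        refine sum_congr rfl fun i _ => ?_
        have h4 : ((x m i : ℝ) : UnitAddCircle) = (((a m : ℝ) * α i : ℝ) : UnitAddCircle) := by
          rw [hx]
          exact AddCircle.coe_fract _
        have h5 : (((k i : ℝ) * x m i : ℝ) : UnitAddCircle) = (k i) • ((x m i : ℝ) : UnitAddCircle) := by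
          rw [← nsmul_eq_mul]
          rfl
        have h6 : (((a m : ℝ) * α i : ℝ) : UnitAddCircle) = (a m) • ((α i : ℝ) : UnitAddCircle) := by
          rw [← nsmul_eq_mul]
          rfl
        rw [h5, h4, h6, smul_comm]
        unfold toTorus
        rw [natCast_zsmul]
      rw [h2]
      refine (norm_nsmul_le).trans ?_
      exact hsmall m hm
    have h2 : |∑ i, (k i : ℝ) * f m i / M - ∑ i, (k i : ℝ) * x m i| ≤ (n + 2) / 4 ^ e := by
      rw [← sum_sub_distrib]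
      refine (abs_sum_le_sum_abs _ _).trans ?_
      calc ∑ i, |(k i : ℝ) * f m i / M - (k i : ℝ) * x m i| ≤ ∑ i : Fin (n + 2), 1 / (4 : ℝ) ^ e := by
            refine sum_le_sum fun i _ => ?_
            have h3 : (k i : ℝ) * f m i / M - (k i : ℝ) * x m i = (k i : ℝ) * ((f m i - x m i * M) / M) := by
              field_simp
            rw [h3, abs_mul, abs_div, Nat.abs_cast, Nat.abs_cast]
            have h4 : |(f m i : ℝ) - x m i * M| ≤ 1 := by
              rw [abs_le]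
              constructor <;> linarith [hf1 m i, hf2 m i]
            have h5 : (k i : ℝ) ≤ 4 ^ (j + 1) := by exact_mod_cast (hk i).le
            calc (k i : ℝ) * (|(f m i : ℝ) - x m i * M| / M) ≤ 4 ^ (j + 1) * (1 / M) := by gcongr
              _ = 1 / 4 ^ e := by
                rw [hM]
                push_cast
                rw [pow_add (4 : ℝ) (j + 1) e]
                have h6 : (4 : ℝ) ^ (j + 1) ≠ 0 := by positivity
                field_simp
        _ = (n + 2) / 4 ^ e := by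
            rw [sum_const, card_univ, Fintype.card_fin, nsmul_eq_mul]
            push_cast
            ring
    have h3 : ((∑ i, (k i : ℝ) * f m i / M : ℝ) : UnitAddCircle) =
        ((∑ i, (k i : ℝ) * x m i : ℝ) : UnitAddCircle) +
        ((∑ i, (k i : ℝ) * f m i / M - ∑ i, (k i : ℝ) * x m i : ℝ) : UnitAddCircle) := by
      rw [← AddCircle.coe_add]
      congr 1
      ring
    rw [h3]
    refine (norm_add_le _ _).trans ?_
    have h4 : ‖((∑ i, (k i : ℝ) * f m i / M - ∑ i, (k i : ℝ) * x m i : ℝ) : UnitAddCircle)‖ ≤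
        |∑ i, (k i : ℝ) * f m i / M - ∑ i, (k i : ℝ) * x m i| := by
      have := QuotientAddGroup.norm_mk_le_norm (S := AddSubgroup.zmultiples (1 : ℝ))
        (m := ∑ i, (k i : ℝ) * f m i / M - ∑ i, (k i : ℝ) * x m i)
      rw [Real.norm_eq_abs] at this
      exact this
    have h5 : η = 1 / 4 ^ e + (n + 2) / 4 ^ e + (n + 3) / 4 ^ e := by
      rw [hη]; ring
    have h6 : (0 : ℝ) ≤ (n + 3) / 4 ^ e := by positivity
    rw [h5]
    linarith
  have hP := pairs (Icc 1 N) f B hmaps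
  have hIN : ((Icc 1 N).card : ℝ) = N := by simp
  rw [hIN] at hP
  have hBc : (B.card : ℝ) ≤ (6 * η * M + 3 * k 0) * M ^ (n + 1) :=
    count2 n M hM1 k (le_trans (Nat.one_le_pow _ _ (by norm_num)) hk0) η hη0 hη1
  have hBc2 : (B.card : ℝ) ≤ N * (12 * (n + 4)) / 4 ^ e := by
    refine hBc.trans ?_
    have h1 : (k 0 : ℝ) ≤ M / 4 ^ e := by
      rw [le_div_iff₀ h4e, hM]
      push_cast
      rw [pow_add]
      have : (k 0 : ℝ) ≤ 4 ^ (j + 1) := by exact_mod_cast (hk 0).le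
      gcongr
    have h2 : 6 * η * M + 3 * (k 0 : ℝ) ≤ M * (12 * (n + 4)) / 4 ^ e := by
      have h3 : 6 * η * M = M * (12 * (n + 3)) / 4 ^ e := by rw [hη]; ring
      have h4 : M * (12 * ((n : ℝ) + 4)) / 4 ^ e = M * (12 * (n + 3)) / 4 ^ e + 12 * (M / 4 ^ e) := by ring
      have h5 : (0 : ℝ) ≤ M / 4 ^ e := by positivity
      rw [h3, h4]
      linarith
    calc (6 * η * M + 3 * (k 0 : ℝ)) * M ^ (n + 1) ≤ M * (12 * (n + 4)) / 4 ^ e * M ^ (n + 1) := by gcongr
      _ = N * (12 * (n + 4)) / 4 ^ e := by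
          rw [hN]
          push_cast
          ring
  -- the pairs
  set P := ((Icc 1 N ×ˢ Icc 1 N).filter fun p => f p.1 = f p.2) with hPdef
  have hNR : (1 : ℝ) ≤ N := by
    have : 1 ≤ N := Nat.one_le_pow _ _ (by omega)
    exact_mod_cast this
  have hPlow : (N : ℝ) * (4 ^ e / (12 * (n + 4))) ≤ P.card := by
    have h1 : (N : ℝ) ^ 2 ≤ N * (12 * (n + 4)) / 4 ^ e * P.card :=
      hP.trans (mul_le_mul_of_nonneg_right hBc2 (Nat.cast_nonneg _))
    have h2 : (N : ℝ) * (4 ^ e / (12 * (n + 4))) = (N : ℝ) ^ 2 / (N * (12 * (n + 4)) / 4 ^ e) := by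
      field_simp
    rw [h2, div_le_iff₀ (by positivity)]
    linarith
  -- remove the diagonal
  set Q := ((Icc 1 N ×ˢ Icc 1 N).filter fun p : ℕ × ℕ => p.1 ≠ p.2 ∧ ‖x p.1 - x p.2‖ < 1 / (M : ℕ)) with hQ
  have hsub : P ⊆ Q ∪ ((Icc 1 N).image fun m => (m, m)) := by
    intro p hp
    rw [hPdef, mem_filter] at hp
    by_cases h : p.1 = p.2
    · apply mem_union_right
      rw [mem_image]
      refine ⟨p.1, (mem_product.1 hp.1).1, ?_⟩
      exact Prod.ext rfl h
    · apply mem_union_left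
      rw [hQ, mem_filter]
      refine ⟨hp.1, h, ?_⟩
      have hM0 : (0 : ℝ) < 1 / (M : ℕ) := by positivity
      rw [pi_norm_lt_iff hM0]
      intro i
      rw [Pi.sub_apply, Real.norm_eq_abs]
      have h1 : f p.1 i = f p.2 i := congrFun hp.2 i
      have h2 := hf1 p.1 i
      have h3 := hf2 p.1 i
      have h4 := hf1 p.2 i
      have h5 := hf2 p.2 i
      rw [h1] at h2 h3
      have hM' : (0 : ℝ) < (M : ℕ) := by positivity
      have h6 : x p.1 i - x p.2 i < 1 / (M : ℕ) := by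
        rw [lt_div_iff₀ hM']
        nlinarith
      have h7 : x p.2 i - x p.1 i < 1 / (M : ℕ) := by
        rw [lt_div_iff₀ hM']
        nlinarith
      exact abs_lt.2 ⟨by linarith, h6⟩
  have hcard : (P.card : ℝ) ≤ Q.card + N := by
    have h1 : P.card ≤ Q.card + ((Icc 1 N).image fun m => (m, m)).card :=
      (card_le_card hsub).trans (card_union_le _ _)
    have h2 : ((Icc 1 N).image fun m => (m, m)).card ≤ N := by
      refine card_image_le.trans ?_
      simp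
    have h3 : P.card ≤ Q.card + N := by omega
    exact_mod_cast h3
  have hfinal : (N : ℝ) * (4 ^ e / (12 * (n + 4)) - 1) ≤ Q.card := by
    have : (N : ℝ) * (4 ^ e / (12 * (n + 4)) - 1) = N * (4 ^ e / (12 * (n + 4))) - N := by ring
    rw [this]
    linarith
  have eN : (N : ℝ) = ((4 ^ (j + 1 + e)) ^ (n + 2) : ℝ) := by
    rw [hN, hM]
    push_cast
    rfl
  rw [← eN]
  exact hfinal

/-- Poissonian pair correlations of a sequence `x 1, x 2, …` of real vectors. -/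
def PPC (d : ℕ) (x : ℕ → Fin d → ℝ) : Prop :=
  ∀ s : ℝ, 0 < s → Tendsto (fun N : ℕ => (1 / (N : ℝ)) *
    (((Icc 1 N ×ˢ Icc 1 N).filter fun p : ℕ × ℕ => p.1 ≠ p.2 ∧
      ‖x p.1 - x p.2‖ < s / (N : ℝ) ^ ((1 : ℝ) / d)).card : ℝ)) atTop (𝓝 ((2 * s) ^ d))

/-- **No Poissonian pair correlations** for integer sequences of size `O(n log n)`. -/
theorem main (n : ℕ) (a : ℕ → ℕ) (C : ℝ) (hC : 0 < C)
    (ha : ∀ t : ℕ, 1 ≤ t → ∀ m ∈ Icc 1 (2 ^ t), (a m : ℝ) ≤ C * t * 2 ^ t) :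
    ∀ᵐ α : Fin (n + 2) → ℝ, ¬ PPC (n + 2) fun m i => Int.fract ((a m : ℝ) * α i) := by
  classical
  obtain ⟨e, he1, he2, he3⟩ : ∃ e : ℕ, 1 ≤ e ∧ 2 * (2 * (n + 3)) ≤ 4 ^ e ∧
      (2 : ℝ) ^ (n + 2) + 1 ≤ 4 ^ e / (12 * (n + 4)) - 1 := by
    obtain ⟨e, he⟩ := pow_unbounded_of_one_lt ((2 * (2 * ((n : ℝ) + 3))) + 12 * (n + 4) * (2 ^ (n + 2) + 2))
      (by norm_num : (1 : ℝ) < 4)
    have hpos1 : (0 : ℝ) < 2 * (2 * ((n : ℝ) + 3)) := by positivity
    have hpos2 : (0 : ℝ) < 12 * (n + 4) * (2 ^ (n + 2) + 2) := by positivity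
    refine ⟨e, ?_, ?_, ?_⟩
    · rcases Nat.eq_zero_or_pos e with h | h
      · exfalso
        rw [h, pow_zero] at he
        have : (0 : ℝ) ≤ n := Nat.cast_nonneg n
        linarith
      · exact h
    · have : (((2 * (2 * (n + 3)) : ℕ)) : ℝ) ≤ ((4 ^ e : ℕ) : ℝ) := by
        push_cast
        linarith
      exact_mod_cast this
    · rw [le_sub_iff_add_le, le_div_iff₀ (by positivity)]
      have : (2 ^ (n + 2) + 1 + 1) * (12 * ((n : ℝ) + 4)) = 12 * (n + 4) * (2 ^ (n + 2) + 2) := by ring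
      linarith
  set D : ℝ := C * (2 * (n + 2) * (1 + e)) * 4 ^ ((1 + e) * (n + 2)) * 4 ^ e with hD
  have hDpos : 0 < D := by positivity
  set c : ℝ := min (1 / 2) (1 / D) with hc
  have hc0 : 0 < c := lt_min (by norm_num) (by positivity)
  have hcD : c * D ≤ 1 := by
    calc c * D ≤ 1 / D * D := by
          apply mul_le_mul_of_nonneg_right (min_le_right _ _) hDpos.le
      _ = 1 := by field_simp
  filter_upwards [ae_lift (family n hc0 (min_le_left _ _))] with α hα hPPC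
  have h1 := hPPC 1 one_pos
  rw [mul_one] at h1
  have h2 := h1.eventually_lt_const (show (2 : ℝ) ^ (n + 2) < 2 ^ (n + 2) + 1 by linarith)
  obtain ⟨N0, hN0⟩ := eventually_atTop.1 h2
  obtain ⟨j, hj, k, hk0, hk, hsm⟩ := hα N0
  set M : ℕ := 4 ^ (j + 1 + e) with hM
  have hM1 : 1 ≤ M := Nat.one_le_pow _ _ (by norm_num)
  have hMj : N0 ≤ M := by
    calc N0 ≤ j := hj
      _ ≤ j + 1 + e := by omega
      _ ≤ 4 ^ (j + 1 + e) := (Nat.lt_pow_self (by norm_num)).le
  have hNM : M ≤ M ^ (n + 2) := Nat.le_self_pow (by omega) M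
  have h3 := hN0 (M ^ (n + 2)) (hMj.trans hNM)
  have h4 := many_pairs n e j k hk0 hk a α (by
    intro m hm
    have h5 : ((4 ^ (j + 1 + e)) ^ (n + 2) : ℕ) = 2 ^ (2 * (j + 1 + e) * (n + 2)) := by
      rw [pow_mul, pow_mul]
      norm_num
    rw [h5] at hm
    have h6 := ha (2 * (j + 1 + e) * (n + 2)) (by
      have : 1 ≤ (j + 1 + e) * (n + 2) := Nat.one_le_iff_ne_zero.2 (by positivity)
      nlinarith) m hm
    have h7 : (2 : ℝ) ^ (2 * (j + 1 + e) * (n + 2)) = 4 ^ (j * (n + 2)) * 4 ^ ((1 + e) * (n + 2)) := by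
      rw [← pow_add, mul_assoc, pow_mul]
      norm_num
      ring_nf
    have h8 : (((2 * (j + 1 + e) * (n + 2) : ℕ)) : ℝ) ≤ (j + 1) * (2 * (n + 2) * (1 + e)) := by
      push_cast
      have h9 : (0 : ℝ) ≤ (j : ℝ) * e := by positivity
      have h10 : ((j : ℝ) + 1 + e) ≤ (j + 1) * (1 + e) := by nlinarith
      calc 2 * ((j : ℝ) + 1 + e) * (n + 2) ≤ 2 * ((j + 1) * (1 + e)) * (n + 2) := by gcongr
        _ = (j + 1) * (2 * (n + 2) * (1 + e)) := by ring
    calc (a m : ℝ) * ‖chi (fun i => (k i : ℤ)) (toTorus α)‖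
        ≤ (C * ((2 * (j + 1 + e) * (n + 2) : ℕ)) * 2 ^ (2 * (j + 1 + e) * (n + 2))) *
          (c / (4 ^ (j * (n + 2)) * (j + 1))) := by
          apply mul_le_mul h6 hsm (norm_nonneg _) (by positivity)
      _ ≤ (C * ((j + 1) * (2 * (n + 2) * (1 + e))) * (4 ^ (j * (n + 2)) * 4 ^ ((1 + e) * (n + 2)))) *
          (c / (4 ^ (j * (n + 2)) * (j + 1))) := by
          rw [h7]
          gcongr
      _ = c * D / 4 ^ e := by
          rw [hD]
          field_simp
      _ ≤ 1 / 4 ^ e := by gcongr) he2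
  have e1 : ((M ^ (n + 2) : ℕ) : ℝ) ^ ((1 : ℝ) / ((n + 2 : ℕ) : ℝ)) = ((M : ℕ) : ℝ) := by
    push_cast
    have := Real.pow_rpow_inv_natCast (x := (M : ℝ)) (Nat.cast_nonneg _) (n := n + 2) (by omega)
    rw [one_div]
    push_cast at this
    exact this
  rw [e1] at h3
  have hNpos : (0 : ℝ) < ((M ^ (n + 2) : ℕ) : ℝ) := by positivity
  have h5 : ((4 ^ (j + 1 + e)) ^ (n + 2) : ℝ) = ((M ^ (n + 2) : ℕ) : ℝ) := by
    rw [hM]
    push_cast
    rfl
  rw [h5] at h4
  have h6 : ((M ^ (n + 2) : ℕ) : ℝ) * (2 ^ (n + 2) + 1) ≤ ((M ^ (n + 2) : ℕ) : ℝ) * (4 ^ e / (12 * (n + 4)) - 1) :=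
    mul_le_mul_of_nonneg_left he3 hNpos.le
  have h7 := h6.trans h4
  rw [one_div, inv_mul_lt_iff₀ hNpos] at h3
  exact absurd (lt_of_le_of_lt h7 h3) (lt_irrefl _)

end Pool.Agent.R335.PP
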