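import Mathlib

/-!
Chebyshev's bound for the `m`-th prime.
-/

set_option autoImplicit false

namespace Pool.Agent.R335.PP

lemma pi_lower (t : ℕ) (ht : 2 ≤ t) : 2 ^ t ≤ Nat.primeCounting (4 * t * 2 ^ t) := by
  set X : ℕ := 4 * t * 2 ^ t with hX
  have h1 := Chebyshev.psi_le_primeCounting_mul_log X
  have h2 := Chebyshev.psi_ge X
  have hlog2 : 0 < Real.log 2 := Real.log_pos (by norm_num)
  have hX8 : X ≤ 8 ^ t := by
    rw [hX]
    have h3 : 4 * t ≤ 4 ^ t := by
      have : ∀ s : ℕ, 4 * (s + 1) ≤ 4 ^ (s + 1) := by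
        intro s
        induction s with
        | zero => norm_num
        | succ s ih => rw [pow_succ]; omega
      obtain ⟨s, rfl⟩ : ∃ s, t = s + 1 := ⟨t - 1, by omega⟩
      exact this s
    calc 4 * t * 2 ^ t ≤ 4 ^ t * 2 ^ t := Nat.mul_le_mul_right _ h3
      _ = 8 ^ t := by rw [← mul_pow]; norm_num
  have hXpos : 0 < X := by positivity
  have hlogX : Real.log X ≤ 3 * t * Real.log 2 := by
    have h3 : Real.log X ≤ Real.log ((8 : ℝ) ^ t) := by
      apply Real.log_le_log (by exact_mod_cast hXpos)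
      exact_mod_cast hX8
    rw [Real.log_pow] at h3
    have h4 : Real.log 8 = 3 * Real.log 2 := by
      rw [show (8 : ℝ) = 2 ^ 3 by norm_num, Real.log_pow]
      norm_num
    rw [h4] at h3
    linarith
  have hlogX1 : Real.log (X + 1) ≤ (3 * t + 1) * Real.log 2 := by
    have h3 : Real.log (X + 1) ≤ Real.log ((X : ℝ) * 2) := by
      apply Real.log_le_log (by positivity)
      have : (1 : ℝ) ≤ X := by exact_mod_cast hXpos
      linarith
    rw [Real.log_mul (by exact_mod_cast hXpos.ne') (by norm_num)] at h3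
    linarith
  have hpi : (0 : ℝ) ≤ (Nat.primeCounting X : ℝ) := Nat.cast_nonneg _
  have h5 : (X : ℝ) * Real.log 2 - (3 * t + 1) * Real.log 2 ≤ Nat.primeCounting X * (3 * t * Real.log 2) := by
    calc (X : ℝ) * Real.log 2 - (3 * t + 1) * Real.log 2 ≤ (X : ℝ) * Real.log 2 - Real.log (X + 1) := by linarith
      _ ≤ Nat.primeCounting X * Real.log X := h2.trans h1
      _ ≤ _ := by gcongr
  have h6 : (X : ℝ) - (3 * t + 1) ≤ Nat.primeCounting X * (3 * t) := by
    have : ((X : ℝ) - (3 * t + 1)) * Real.log 2 ≤ (Nat.primeCounting X * (3 * t)) * Real.log 2 := by linarith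
    exact le_of_mul_le_mul_right this hlog2
  have h7 : X ≤ Nat.primeCounting X * (3 * t) + (3 * t + 1) := by
    have : (X : ℝ) ≤ ((Nat.primeCounting X * (3 * t) + (3 * t + 1) : ℕ) : ℝ) := by
      push_cast
      linarith
    exact_mod_cast this
  by_contra hcon
  push Not at hcon
  have h8 : (Nat.primeCounting X + 1) * (3 * t) ≤ 2 ^ t * (3 * t) := Nat.mul_le_mul_right _ hcon
  have h9 : X = 2 ^ t * (3 * t) + 2 ^ t * t := by rw [hX]; ring
  have h10 : 4 ≤ 2 ^ t := by
    calc 4 = 2 ^ 2 := by norm_num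
      _ ≤ 2 ^ t := Nat.pow_le_pow_right (by norm_num) ht
  have h11 : 4 * t ≤ 2 ^ t * t := Nat.mul_le_mul_right _ h10
  have h12 : (Nat.primeCounting X + 1) * (3 * t) = Nat.primeCounting X * (3 * t) + 3 * t := by ring
  omega

/-- the `m`-th prime is at most `4 t 2 ^ t` for `m ≤ 2 ^ t` -/
lemma prime_le (t : ℕ) (ht : 1 ≤ t) (m : ℕ) (hm1 : 1 ≤ m) (hm : m ≤ 2 ^ t) :
    Nat.nth Nat.Prime (m - 1) ≤ 4 * t * 2 ^ t := by
  rcases Nat.lt_or_ge t 2 with h | h
  · obtain rfl : t = 1 := by omega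
    have h1 : m = 1 ∨ m = 2 := by omega
    rcases h1 with rfl | rfl
    · simp [Nat.nth_prime_zero_eq_two]
    · simp [Nat.nth_prime_one_eq_three]
  · have h1 := pi_lower t h
    have h2 : m - 1 < Nat.count Nat.Prime (4 * t * 2 ^ t + 1) := by
      have h3 : Nat.primeCounting (4 * t * 2 ^ t) = Nat.count Nat.Prime (4 * t * 2 ^ t + 1) := rfl
      omega
    have := Nat.nth_lt_of_lt_count h2
    omega

end Pool.Agent.R335.PP
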